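import Pool.Agent.KS6_83.GH.B

/-!
# Gelfand numbers versus Hilbert numbers for Hilbert domains: the inequality without oversampling
and the near-optimality of its factor `√n`
-/

set_option autoImplicit false

open Metric Finset
open scoped ENNReal

namespace Pool.Agent.Results.MP_93c8fe_an.NearlyOptimalFactor

open Pool.Agent.Results.MP_93c8fe_an.GelfandHilbertNumbers Pool.Agent.KS6_83.GH

universe u v

/-- (1) For every inner product space `X` (complete or not), every normed space `Y`, every bounded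
linear `S : X → Y` and every `n ≥ 1`: `c_{n-1}(S) ≤ √n (∏_{k<n} h_k(S))^{1/n}`, and even
`∏_{k<n} c_k(S) ≤ n^{n/2} ∏_{k<n} h_k(S)`.

(2) The factors are optimal up to `√e` and `e^{n/2}`: in the first inequality `√n` cannot be replaced
by any number smaller than `(n!)^{1/(2n)}`, which is larger than `√(n/e)`, in the second one
`n^{n/2}` cannot be replaced by any number smaller than `√(n!)`, not even for the identity
operators from `ℓ₂^N` to `ℓ₁^N`.

(3) The reason: `c_k ≥ √(N - k)` and `h_k ≤ √(N / (k + 1))` for the identity from `ℓ₂^N` to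
`ℓ₁^N`. -/
theorem result :
    (∀ (X : Type u) [NormedAddCommGroup X] [InnerProductSpace ℝ X] (Y : Type v)
      [NormedAddCommGroup Y] [NormedSpace ℝ Y] (S : X →L[ℝ] Y) (n : ℕ), 1 ≤ n →
      gelfandNumber S (closedBall (0 : X) 1) (n - 1) ≤
          (n : ℝ≥0∞) ^ (1 / 2 : ℝ) *
            (∏ k ∈ range n, hilbertNumber S (closedBall (0 : X) 1) k) ^ (1 / n : ℝ) ∧
        ∏ k ∈ range n, gelfandNumber S (closedBall (0 : X) 1) k ≤
          (n : ℝ≥0∞) ^ (n / 2 : ℝ) *
            ∏ k ∈ range n, hilbertNumber S (closedBall (0 : X) 1) k) ∧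
    (∀ n : ℕ, 1 ≤ n →
      √((n : ℝ) / Real.exp 1) < (n.factorial : ℝ) ^ (1 / (2 * n) : ℝ) ∧
      (∀ K : ℝ, K < (n.factorial : ℝ) ^ (1 / (2 * n) : ℝ) → ∃ N : ℕ,
        ENNReal.ofReal K *
            (∏ k ∈ range n, hilbertNumber (idN N) (closedBall 0 1) k) ^ (1 / n : ℝ) <
          gelfandNumber (idN N) (closedBall 0 1) (n - 1)) ∧
      (∀ K : ℝ, K < √(n.factorial : ℝ) → ∃ N : ℕ,
        ENNReal.ofReal K * ∏ k ∈ range n, hilbertNumber (idN N) (closedBall 0 1) k <
          ∏ k ∈ range n, gelfandNumber (idN N) (closedBall 0 1) k)) ∧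
    ∀ N k : ℕ, ENNReal.ofReal √((N : ℝ) - k) ≤ gelfandNumber (idN N) (closedBall 0 1) k ∧
      hilbertNumber (idN N) (closedBall 0 1) k ≤ ENNReal.ofReal √((N : ℝ) / (k + 1)) := by
  refine ⟨?_, fun n hn => ⟨sqrt_lt_factorial n hn, factor_ge n hn, ?_⟩,
    fun N k => ⟨gelfand_ge N k, hilbert_le N k⟩⟩
  · intro X _ _ Y _ _ S n hn
    have h1 := prod_gelfand_le S n
    have h2 : ENNReal.ofReal √n = (n : ℝ≥0∞) ^ (1 / 2 : ℝ) := by
      rw [Real.sqrt_eq_rpow, ← ENNReal.ofReal_rpow_of_nonneg (Nat.cast_nonneg n) (by norm_num),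
        ENNReal.ofReal_natCast]
    have hn0 : (n : ℝ) ≠ 0 := by positivity
    refine ⟨?_, ?_⟩
    · have h3 : gelfandNumber S (closedBall (0 : X) 1) (n - 1) ^ n ≤
          ∏ k ∈ range n, gelfandNumber S (closedBall (0 : X) 1) k := by
        have : ∏ _k ∈ range n, gelfandNumber S (closedBall (0 : X) 1) (n - 1) ≤
            ∏ k ∈ range n, gelfandNumber S (closedBall (0 : X) 1) k :=
          prod_le_prod' fun k hk => gelfand_anti S _ (by
            have := mem_range.mp hk
            omega)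
        simpa using this
      have h4 := h3.trans h1
      have h5 := ENNReal.rpow_le_rpow h4 (by positivity : (0 : ℝ) ≤ 1 / n)
      rw [ENNReal.mul_rpow_of_nonneg _ _ (by positivity), ← ENNReal.rpow_natCast,
        ← ENNReal.rpow_natCast, ← ENNReal.rpow_mul, ← ENNReal.rpow_mul, mul_one_div_cancel hn0,
        ENNReal.rpow_one, ENNReal.rpow_one, h2] at h5
      exact h5
    · refine h1.trans (le_of_eq ?_)
      rw [h2, ← ENNReal.rpow_natCast, ← ENNReal.rpow_mul]
      congr 2
      ring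
  · intro K hK
    exact prod_factor_ge n hn K hK

end Pool.Agent.Results.MP_93c8fe_an.NearlyOptimalFactor
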